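import Pool.Agent.H64.AK.Defs

/-!
# Closures of countable sets of functions on a compact space are Lindelof
-/

set_option autoImplicit false

open Topology Cardinal

namespace Pool.Agent.H24.AK

open Pool.Agent.H64.AK Pool.Agent.H20.SL

theorem cll : T_CLL := by
  intro X _ _ D hD
  have hDc : Countable D := hD.to_subtype
  let φ : X → (D → ℝ) := fun x d => d.1.1 x
  have hφ : Continuous φ := continuous_pi fun d => d.1.2
  let Z : Set (D → ℝ) := Set.range φ
  have hZc : CompactSpace Z := isCompact_iff_compactSpace.mp (isCompact_range hφ)
  let π : X → Z := Set.rangeFactorization φ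
  have hπ : Continuous π := hφ.subtype_mk _
  have hπs : Function.Surjective π := Set.rangeFactorization_surjective
  have hq : IsQuotientMap π := IsClosedMap.isQuotientMap (hπ.isClosedMap) hπ hπs
  let Ψ : C(Z, ℝ) → Cp X := fun g => ⟨fun x => g (π x), g.continuous.comp hπ⟩
  have hΨ : Continuous Ψ := by
    refine Continuous.subtype_mk (continuous_pi fun x => ?_) _
    exact continuous_eval_const (F := C(Z, ℝ)) (π x)
  have hL : IsLindelof (Set.range Ψ) := isLindelof_range hΨ
  refine hL.of_isClosed_subset isClosed_closure ?_
  intro f hf
  have hfac : ∀ x y, φ x = φ y → f.1 x = f.1 y := by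
    intro x y hxy
    have hcl : IsClosed {h : Cp X | h.1 x = h.1 y} :=
      isClosed_eq ((continuous_apply x).comp continuous_subtype_val)
        ((continuous_apply y).comp continuous_subtype_val)
    have hsub : D ⊆ {h : Cp X | h.1 x = h.1 y} := by
      intro d hd
      exact congrFun hxy ⟨d, hd⟩
    exact closure_minimal hsub hcl hf
  let g : Z → ℝ := fun z => f.1 (Function.surjInv hπs z)
  have hg : g ∘ π = f.1 := by
    funext x
    apply hfac
    have h1 : π (Function.surjInv hπs (π x)) = π x := Function.surjInv_eq hπs (π x)
    exact congrArg Subtype.val h1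
  have hgc : Continuous g := by
    rw [hq.continuous_iff, hg]
    exact f.2
  refine ⟨⟨g, hgc⟩, ?_⟩
  apply Subtype.ext
  exact hg

end Pool.Agent.H24.AK
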