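import Pool.Agent.H64.AK.Defs

/-!
# Co-countable convergence gives condensation points
-/

set_option autoImplicit false

open Topology Cardinal

namespace Pool.Agent.H24.AK

open Pool.Agent.H64.AK Pool.Agent.H20.SL

theorem cnd (hSW : T_SW) (hSTP : T_STP) : T_CND := by
  intro X _ _ E hE hSep hCo I f hI
  choose e p he hp using fun (i : I) (n : ℕ) =>
    hSW X E hE hSep (f i) (1 / ((n : ℝ) + 1)) (by positivity)
  obtain ⟨J, q, c, hJa, hJu, hc, hJ⟩ := hSTP X E hCo I e p (fun i n j => he i n j) hI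
  let G : ℕ → X → ℝ := fun n x => MvPolynomial.aeval (fun j => c n j x) (q n)
  -- the functions of the family are near `G n`
  have h1 : ∀ n, ∃ M, ∀ m, M ≤ m → ∀ x,
      {i | i ∈ J m ∧ ¬ |(f i).1 x - G n x| < 1 / ((n : ℝ) + 1)}.Countable := by
    intro n
    refine ⟨((q n).vars.sup fun j => Nat.pair n j + 1) ⊔ (Nat.pair n 0 + 1), ?_⟩
    intro m hm x
    have hm0 : Nat.pair n 0 < m := by
      have := le_trans le_sup_right hm
      omega
    have hmj : ∀ j ∈ (q n).vars, Nat.pair n j < m := by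
      intro j hj
      have h2 : Nat.pair n j + 1 ≤ (q n).vars.sup fun j => Nat.pair n j + 1 :=
        Finset.le_sup (f := fun j => Nat.pair n j + 1) hj
      have := le_trans (le_trans h2 le_sup_left) hm
      omega
    have hcount : (⋃ j ∈ (q n).vars, {i | i ∈ J m ∧ e i n j x ≠ c n j x}).Countable := by
      refine Set.Countable.biUnion (Finset.countable_toSet _) fun j hj => ?_
      exact (hJ n j m (hmj j hj)).2 x
    refine hcount.mono ?_
    rintro i ⟨hi, hbad⟩
    by_contra hcon
    apply hbad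
    have heq : ∀ j ∈ (q n).vars, e i n j x = c n j x := by
      intro j hj
      by_contra hne
      exact hcon (Set.mem_biUnion (show j ∈ ((q n).vars : Set ℕ) from hj) ⟨hi, hne⟩)
    have hG : MvPolynomial.aeval (fun j => e i n j x) (p i n) = G n x := by
      rw [(hJ n 0 m hm0).1 i hi]
      exact MvPolynomial.eval₂Hom_congr' rfl (fun j hj _ => heq j hj) rfl
    rw [← hG]
    exact hp i n x
  choose M hM using h1
  have hbadF : ∀ (n m : ℕ), M n ≤ m → ∀ F : Finset X,
      {i | i ∈ J m ∧ ¬ ∀ x ∈ F, |(f i).1 x - G n x| < 1 / ((n : ℝ) + 1)}.Countable := by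
    intro n m hm F
    have hcount : (⋃ x ∈ F, {i | i ∈ J m ∧ ¬ |(f i).1 x - G n x| < 1 / ((n : ℝ) + 1)}).Countable :=
      Set.Countable.biUnion (Finset.countable_toSet _) fun x _ => hM n m hm x
    refine hcount.mono ?_
    rintro i ⟨hi, hbad⟩
    push Not at hbad
    obtain ⟨x, hx, hxb⟩ := hbad
    exact Set.mem_biUnion (show x ∈ (F : Set X) from hx) ⟨hi, not_lt.mpr hxb⟩
  have h2 : ∀ n n' x, |G n x - G n' x| ≤ 1 / ((n : ℝ) + 1) + 1 / ((n' : ℝ) + 1) := by
    intro n n' x
    have hex : ∃ i ∈ J (max (M n) (M n')), |(f i).1 x - G n x| < 1 / ((n : ℝ) + 1) ∧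
        |(f i).1 x - G n' x| < 1 / ((n' : ℝ) + 1) := by
      by_contra hcon
      push Not at hcon
      apply hJu (max (M n) (M n'))
      refine ((hM n (max (M n) (M n')) (le_max_left _ _) x).union
        (hM n' (max (M n) (M n')) (le_max_right _ _) x)).mono ?_
      intro i hi
      by_cases ha : |(f i).1 x - G n x| < 1 / ((n : ℝ) + 1)
      · exact Or.inr ⟨hi, not_lt.mpr (hcon i hi ha)⟩
      · exact Or.inl ⟨hi, ha⟩
    obtain ⟨i, -, ha, hb⟩ := hex
    have h3 : G n x - G n' x = ((f i).1 x - G n' x) - ((f i).1 x - G n x) := by ring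
    rw [h3]
    refine (abs_sub _ _).trans ?_
    linarith
  have hlim : Filter.Tendsto (fun n : ℕ => 1 / ((n : ℝ) + 1)) Filter.atTop (𝓝 0) :=
    tendsto_one_div_add_atTop_nhds_zero_nat
  have hanti : ∀ N n : ℕ, N ≤ n → 1 / ((n : ℝ) + 1) ≤ 1 / ((N : ℝ) + 1) := by
    intro N n h
    have : (N : ℝ) ≤ n := by exact_mod_cast h
    apply one_div_le_one_div_of_le (by positivity)
    linarith
  have hcau : ∀ x, CauchySeq (fun n => G n x) := by
    intro x
    refine cauchySeq_of_le_tendsto_0 (fun N : ℕ => 1 / ((N : ℝ) + 1) + 1 / ((N : ℝ) + 1)) ?_ ?_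
    · intro n m N hn hm
      rw [Real.dist_eq]
      exact (h2 n m x).trans (add_le_add (hanti N n hn) (hanti N m hm))
    · simpa using hlim.add hlim
  choose g hg using fun x => cauchySeq_tendsto_of_complete (hcau x)
  have hgG : ∀ n x, |g x - G n x| ≤ 1 / ((n : ℝ) + 1) := by
    intro n x
    have ha : Filter.Tendsto (fun n' => |G n' x - G n x|) Filter.atTop (𝓝 |g x - G n x|) :=
      ((hg x).sub_const _).abs
    have hb : Filter.Tendsto (fun n' : ℕ => 1 / ((n' : ℝ) + 1) + 1 / ((n : ℝ) + 1)) Filter.atTop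
        (𝓝 (0 + 1 / ((n : ℝ) + 1))) := hlim.add_const _
    have := le_of_tendsto_of_tendsto' ha hb fun n' => h2 n' n x
    simpa using this
  have hGc : ∀ n, Continuous (G n) := by
    intro n
    have ha : G n = fun x => MvPolynomial.eval (fun j => c n j x)
        (MvPolynomial.map (algebraMap ℚ ℝ) (q n)) := by
      funext x
      simp only [G]
      rw [MvPolynomial.eval_map]
      rfl
    rw [ha]
    exact (MvPolynomial.continuous_eval _).comp (continuous_pi fun j => hSep.1 _ (hc n j))
  have hgc : Continuous g := by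
    have hu : TendstoUniformly G g Filter.atTop := by
      rw [Metric.tendstoUniformly_iff]
      intro ε hε
      filter_upwards [hlim.eventually (gt_mem_nhds hε)] with n hn x
      rw [Real.dist_eq]
      exact (hgG n x).trans_lt hn
    exact hu.continuous (Filter.Eventually.of_forall hGc).frequently
  refine ⟨⟨g, hgc⟩, ?_⟩
  intro U hU hgU hcount
  obtain ⟨V, hV, rfl⟩ := isOpen_induced_iff.mp hU
  obtain ⟨F, u, hu, hFu⟩ := isOpen_pi_iff.mp hV g hgU
  have hε : ∃ ε > 0, ∀ x ∈ F, Metric.ball (g x) ε ⊆ u x := by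
    clear hFu
    classical
    induction F using Finset.induction_on with
    | empty => exact ⟨1, one_pos, by simp⟩
    | insert a s ha ih =>
      obtain ⟨ε, hε, h⟩ := ih fun b hb => hu b (Finset.mem_insert_of_mem hb)
      obtain ⟨ε', hε', h'⟩ := Metric.isOpen_iff.mp (hu a (Finset.mem_insert_self _ _)).1 _
        (hu a (Finset.mem_insert_self _ _)).2
      refine ⟨min ε ε', lt_min hε hε', ?_⟩
      intro x hx
      rcases Finset.mem_insert.mp hx with rfl | hx
      · exact (Metric.ball_subset_ball (min_le_right _ _)).trans h'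
      · exact (Metric.ball_subset_ball (min_le_left _ _)).trans (h x hx)
  obtain ⟨ε, hε, hball⟩ := hε
  obtain ⟨n, hn⟩ : ∃ n : ℕ, 1 / ((n : ℝ) + 1) < ε / 2 := by
    exact exists_nat_one_div_lt (half_pos hε)
  apply hJu (M n)
  refine (hcount.union (hbadF n (M n) le_rfl F)).mono ?_
  intro i hi
  by_cases hgood : ∀ x ∈ F, |(f i).1 x - G n x| < 1 / ((n : ℝ) + 1)
  · left
    apply hFu
    intro x hx
    apply hball x hx
    rw [Metric.mem_ball, Real.dist_eq]
    have h4 := hgood x hx
    have h5 := hgG n x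
    have h6 : (f i).1 x - g x = ((f i).1 x - G n x) - (g x - G n x) := by ring
    rw [h6]
    refine (abs_sub _ _).trans_lt ?_
    linarith
  · exact Or.inr ⟨hi, hgood⟩

end Pool.Agent.H24.AK
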